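import Mathlib
import Pool.Agent.W953.KC.NMc
import Pool.Agent.W953.NW.Thr
import Pool.Agent.H559R8.Main

/-!
# Formulas inside formulas with many trivial clauses
-/

set_option autoImplicit false

namespace Pool.Agent.W953.KC.Sat

open Filter Finset Pool.Agent Pool.Agent.H559R4 Pool.Agent.H559R8

variable {n M M' N : ℕ}

/-- the formula of an assignment -/
def form (e : Fin M × Fin n × Bool ≃ Fin N) (x : Fin N → Bool) : Fin M × Fin n × Bool → Bool :=
  fun p => x (e p)

variable (e : Fin M × Fin n × Bool ≃ Fin N) (P : Finset (Fin M × Fin n × Bool))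

/-- the substitution -/
noncomputable def csub (M' : ℕ) : Fin N → (Fin M' × Fin n × Bool) ⊕ Bool := by
  classical
  exact fun c => if g : (e.symm c).1.1 < M' then .inl (⟨(e.symm c).1.1, g⟩, (e.symm c).2)
    else .inr (decide (e.symm c ∈ P))

lemma csub_small (z : Fin M' × Fin n × Bool → Bool) (p : Fin M × Fin n × Bool)
    (hp : p.1.1 < M') : sx (csub e P M') z (e p) = z (⟨p.1.1, hp⟩, p.2) := by
  unfold sx csub
  simp only [Equiv.symm_apply_apply]
  rw [dif_pos hp]
  rfl

lemma csub_big (z : Fin M' × Fin n × Bool → Bool) (p : Fin M × Fin n × Bool)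
    (hp : M' ≤ p.1.1) : sx (csub e P M') z (e p) = true ↔ p ∈ P := by
  unfold sx csub
  simp only [Equiv.symm_apply_apply]
  rw [dif_neg (by omega)]
  simp [sv]

variable {P}
/-- the trivial clauses -/
structure Pad (P : Finset (Fin M × Fin n × Bool)) (M' w : ℕ) : Prop where
  big : ∀ p ∈ P, M' ≤ p.1.1
  triv : ∀ j : Fin M, M' ≤ j.1 → ∃ i : Fin n, ∀ b, (j, i, b) ∈ P
  narrow : ∀ j : Fin M, (univ.filter (fun z : Fin n × Bool => (j, z.1, z.2) ∈ P)).card ≤ w

theorem sat_iff (hM : M' ≤ M) {w : ℕ} (hP : Pad P M' w) (z : Fin M' × Fin n × Bool → Bool) :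
    Sat (form e (sx (csub e P M') z)) ↔ Sat z := by
  constructor
  · rintro ⟨a, ha⟩
    refine ⟨a, fun j => ?_⟩
    obtain ⟨i, hi⟩ := ha (Fin.castLE hM j)
    refine ⟨i, ?_⟩
    have := csub_small e P z (Fin.castLE hM j, i, a i) j.2
    rw [form, this] at hi
    exact hi
  · rintro ⟨a, ha⟩
    refine ⟨a, fun j => ?_⟩
    by_cases hj : j.1 < M'
    · obtain ⟨i, hi⟩ := ha ⟨j.1, hj⟩
      refine ⟨i, ?_⟩
      rw [form, csub_small e P z (j, i, a i) hj]
      exact hi
    · obtain ⟨i, hi⟩ := hP.triv j (by omega)
      exact ⟨i, (csub_big e P z (j, i, a i) (by simp only; omega)).2 (hi _)⟩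

theorem narrow_sub {w : ℕ} (hP : Pad P M' w) (z : Fin M' × Fin n × Bool → Bool)
    (hz : Narrow w z) : Narrow w (form e (sx (csub e P M') z)) := by
  intro j
  by_cases hj : j.1 < M'
  · refine le_trans (le_of_eq ?_) (hz ⟨j.1, hj⟩)
    congr 1
    apply Finset.filter_congr
    intro p _
    rw [form, csub_small e P z (j, p.1, p.2) hj]
  · refine le_trans (le_of_eq ?_) (hP.narrow j)
    congr 1
    apply Finset.filter_congr
    intro p _
    exact csub_big e P z (j, p.1, p.2) (by simp only; omega)

theorem ones_sat (hM : M' ≤ M) {w w' : ℕ} (hP : Pad P M' w) (z : Fin M' × Fin n × Bool → Bool)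
    (hz : Narrow w' z) :
    P.card ≤ NW.wt (sx (csub e P M') z) ∧ NW.wt (sx (csub e P M') z) ≤ P.card + M' * w' := by
  classical
  have h1 : NW.wt (sx (csub e P M') z) =
      (univ.filter (fun p : Fin M × Fin n × Bool => sx (csub e P M') z (e p) = true)).card := by
    unfold NW.wt
    refine (Finset.card_bij (fun p _ => e p) ?_ ?_ ?_).symm
    · intro p hp
      simpa using hp
    · intro p _ p' _ h
      exact e.injective h
    · intro c hc
      exact ⟨e.symm c, by simpa using hc, by simp⟩
  rw [h1]
  constructor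
  · apply Finset.card_le_card
    intro p hp
    rw [Finset.mem_filter]
    exact ⟨Finset.mem_univ _, (csub_big e P z p (hP.big p hp)).2 hp⟩
  · have h2 : (univ.filter (fun p : Fin M × Fin n × Bool => sx (csub e P M') z (e p) = true)) ⊆
        P ∪ (univ.biUnion (fun j : Fin M' => (univ.filter (fun q : Fin n × Bool =>
          z (j, q.1, q.2) = true)).image (fun q => (Fin.castLE hM j, q.1, q.2)))) := by
      intro p hp
      rw [Finset.mem_filter] at hp
      rw [Finset.mem_union]
      by_cases g : p.1.1 < M'
      · right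
        rw [Finset.mem_biUnion]
        refine ⟨⟨p.1.1, g⟩, Finset.mem_univ _, ?_⟩
        rw [Finset.mem_image]
        refine ⟨p.2, ?_, ?_⟩
        · rw [Finset.mem_filter]
          refine ⟨Finset.mem_univ _, ?_⟩
          rw [csub_small e P z p g] at hp
          exact hp.2
        · rfl
      · exact Or.inl ((csub_big e P z p (by omega)).1 hp.2)
    refine (Finset.card_le_card h2).trans ((Finset.card_union_le _ _).trans ?_)
    apply Nat.add_le_add_left
    refine (Finset.card_biUnion_le_card_mul _ _ w' (fun j _ => ?_)).trans ?_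
    · exact Finset.card_image_le.trans (hz j)
    · rw [Finset.card_univ, Fintype.card_fin]

/-- trivial clauses with `m` literals -/
theorem exists_pad {h m : ℕ} (hM : M' ≤ M) (hn : h < n) (h1 : 2 * (M - M') ≤ m)
    (h2 : m ≤ 2 * (h + 1) * (M - M')) :
    ∃ P : Finset (Fin M × Fin n × Bool), P.card = m ∧ Pad P M' (2 * (h + 1)) := by
  classical
  set S : Finset (Fin M × Fin n × Bool) :=
    univ.filter (fun p => M' ≤ p.1.1 ∧ p.2.1.1 = 0) with hS
  set T : Finset (Fin M × Fin n × Bool) :=
    univ.filter (fun p => M' ≤ p.1.1 ∧ p.2.1.1 ≤ h) with hT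
  have hST : S ⊆ T := by
    intro p hp
    rw [hS, Finset.mem_filter] at hp
    rw [hT, Finset.mem_filter]
    exact ⟨hp.1, hp.2.1, by omega⟩
  have hcF : (univ.filter (fun j : Fin M => M' ≤ j.1)).card = M - M' := by
    let f : Fin (M - M') → Fin M := fun j => ⟨M' + j.1, by have := j.2; omega⟩
    have hf : Function.Injective f := by
      intro a b hab
      have := congrArg (fun q : Fin M => q.1) hab
      simp only [f] at this
      exact Fin.ext (by omega)
    have e1 : (univ.filter (fun j : Fin M => M' ≤ j.1)) = univ.image f := by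
      ext j
      simp only [Finset.mem_filter, Finset.mem_univ, true_and, Finset.mem_image]
      constructor
      · intro hj
        have := j.2
        exact ⟨⟨j.1 - M', by omega⟩, Fin.ext (by simp only [f]; omega)⟩
      · rintro ⟨k, rfl⟩
        simp only [f]
        omega
    rw [e1, Finset.card_image_of_injective _ hf, Finset.card_univ, Fintype.card_fin]
  have hc0 : (univ.filter (fun i : Fin n => i.1 = 0)).card = 1 := by
    rw [Finset.card_eq_one]
    refine ⟨⟨0, by omega⟩, ?_⟩
    ext i
    simp only [Finset.mem_filter, Finset.mem_univ, true_and, Finset.mem_singleton]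
    exact ⟨fun h => Fin.ext h, fun h => by rw [h]⟩
  have hch : (univ.filter (fun i : Fin n => i.1 ≤ h)).card = h + 1 := by
    let f : Fin (h + 1) → Fin n := fun j => ⟨j.1, by have := j.2; omega⟩
    have hf : Function.Injective f := by
      intro a b hab
      have := congrArg (fun q : Fin n => q.1) hab
      simp only [f] at this
      exact Fin.ext this
    have e1 : (univ.filter (fun i : Fin n => i.1 ≤ h)) = univ.image f := by
      ext j
      simp only [Finset.mem_filter, Finset.mem_univ, true_and, Finset.mem_image]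
      constructor
      · intro hj
        exact ⟨⟨j.1, by omega⟩, rfl⟩
      · rintro ⟨k, rfl⟩
        simp only [f]
        omega
    rw [e1, Finset.card_image_of_injective _ hf, Finset.card_univ, Fintype.card_fin]
  have hSc : S.card = 2 * (M - M') := by
    have : S = (univ.filter (fun j : Fin M => M' ≤ j.1)) ×ˢ
        ((univ.filter (fun i : Fin n => i.1 = 0)) ×ˢ (univ : Finset Bool)) := by
      ext p
      simp only [hS, Finset.mem_filter, Finset.mem_univ, true_and, Finset.mem_product, and_true]
    rw [this, Finset.card_product, Finset.card_product, hcF, hc0]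
    simp only [Finset.card_univ, Fintype.card_bool]
    ring
  have hTc : T.card = 2 * (h + 1) * (M - M') := by
    have : T = (univ.filter (fun j : Fin M => M' ≤ j.1)) ×ˢ
        ((univ.filter (fun i : Fin n => i.1 ≤ h)) ×ˢ (univ : Finset Bool)) := by
      ext p
      simp only [hT, Finset.mem_filter, Finset.mem_univ, true_and, Finset.mem_product, and_true]
    rw [this, Finset.card_product, Finset.card_product, hcF, hch]
    simp only [Finset.card_univ, Fintype.card_bool]
    ring
  obtain ⟨P, hP1, hP2, hP3⟩ := Finset.exists_subsuperset_card_eq hST (hSc.trans_le h1)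
    (h2.trans_eq hTc.symm)
  refine ⟨P, hP3, ⟨?_, ?_, ?_⟩⟩
  · intro p hp
    have := hP2 hp
    rw [hT, Finset.mem_filter] at this
    exact this.2.1
  · intro j hj
    refine ⟨⟨0, by omega⟩, fun b => hP1 ?_⟩
    rw [hS, Finset.mem_filter]
    exact ⟨Finset.mem_univ _, hj, rfl⟩
  · intro j
    have h3 : (univ.filter (fun z : Fin n × Bool => (j, z.1, z.2) ∈ P)) ⊆
        (univ.filter (fun i : Fin n => i.1 ≤ h)) ×ˢ (univ : Finset Bool) := by
      intro z hz
      rw [Finset.mem_filter] at hz
      have := hP2 hz.2
      rw [hT, Finset.mem_filter] at this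
      rw [Finset.mem_product, Finset.mem_filter]
      exact ⟨⟨Finset.mem_univ _, this.2.2⟩, Finset.mem_univ _⟩
    refine (Finset.card_le_card h3).trans ?_
    rw [Finset.card_product, hch]
    simp only [Finset.card_univ, Fintype.card_bool]
    omega

end Pool.Agent.W953.KC.Sat
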