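import Mathlib
import Pool.Agent.W953.KC.Sat
import Pool.Agent.W953.KC.Par

/-!
# Satisfiability of formulas with short clauses: windows and back
-/

set_option autoImplicit false

namespace Pool.Agent.W953.KC.Sat

open Filter Pool.Agent Pool.Agent.H559R4 Pool.Agent.H559R8
open Pool.Agent.H540R2 Pool.Agent.H540R2.Circuit Pool.Agent.W953.NW

variable {n M N : ℕ}

lemma mc_any (G : ℕ → BF N) (s d : ℕ) : ∀ k : ℕ, (∀ j < k, MC (G j) s d) →
    MC (fun x => decide (∃ j < k, G j x = true)) (k * (s + 1)) (d + k) := by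
  intro k
  induction k with
  | zero =>
    intro _
    refine (MC.const false _ _).congr fun x => ?_
    simp
  | succ k ih =>
    intro h
    have h1 := (ih (fun j hj => h j (by omega))).or (h k (Nat.lt_succ_self k))
    refine (h1.le (by rw [Nat.succ_mul]; omega) (by
      have : max (d + k) d = d + k := max_eq_left (by omega)
      rw [this]
      omega)).congr fun x => ?_
    rw [Bool.eq_iff_iff]
    simp only [Bool.or_eq_true, decide_eq_true_eq]
    constructor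
    · rintro (⟨j, hj, hx⟩ | hx)
      · exact ⟨j, by omega, hx⟩
      · exact ⟨k, Nat.lt_succ_self k, hx⟩
    · rintro ⟨j, hj, hx⟩
      rcases Nat.lt_succ_iff_lt_or_eq.1 hj with h' | rfl
      · exact Or.inl ⟨j, h', hx⟩
      · exact Or.inr hx

/-- a numbering of the literals -/
noncomputable def ql (n : ℕ) : Fin n × Bool ≃ Fin (n * 2) :=
  Fintype.equivFinOfCardEq (by simp)

open Classical in
lemma nonNarrow_mc (e : Fin M × Fin n × Bool ≃ Fin N) (L : ℕ) :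
    ∃ d, MC (fun x => decide (¬ Narrow L (form e x))) (M * 2 ^ tde (n * 2)) d := by
  let G : ℕ → BF N := fun j x => if hj : j < M then
    thr (L + 1) (fun i : Fin (n * 2) => x (e (⟨j, hj⟩, (ql n).symm i))) else false
  have hG : ∀ j < M, MC (G j) (2 ^ tde (n * 2) - 1) (tde (n * 2)) := by
    intro j hj
    have h1 := (thr_mc (n := n * 2) (L + 1)).comp
      (g := fun i : Fin (n * 2) => fun x : Fin N → Bool => x (e (⟨j, hj⟩, (ql n).symm i)))
      (t := 0) (e := 0) (fun i => MC.var _ 0 0)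
    refine (h1.le (by simp [tde]) (by simp [tde])).congr fun x => ?_
    simp only [G, dif_pos hj]
  refine ⟨_, ((mc_any G _ _ M hG).le ?_ le_rfl).congr fun x => ?_⟩
  · rw [Nat.sub_add_cancel Nat.one_le_two_pow]
  · rw [decide_eq_decide]
    unfold Narrow
    push Not
    have key : ∀ j (hj : j < M), G j x = true ↔
        L < (Finset.univ.filter (fun z : Fin n × Bool =>
          form e x (⟨j, hj⟩, z.1, z.2) = true)).card := by
      intro j hj
      simp only [G, dif_pos hj, thr, decide_eq_true_eq]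
      have h1 : wt (fun i : Fin (n * 2) => x (e (⟨j, hj⟩, (ql n).symm i))) =
          (Finset.univ.filter (fun z : Fin n × Bool =>
          form e x (⟨j, hj⟩, z.1, z.2) = true)).card := by
        unfold wt
        refine Finset.card_bij (fun i _ => (ql n).symm i) ?_ ?_ ?_
        · intro i hi
          simpa [form] using hi
        · intro i _ i' _ h
          exact (ql n).symm.injective h
        · intro z hz
          exact ⟨ql n z, by simpa [form] using hz, by simp⟩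
      rw [h1]
      omega
    constructor
    · rintro ⟨j, hj, h⟩
      exact ⟨⟨j, hj⟩, (key j hj).1 h⟩
    · rintro ⟨j, h⟩
      exact ⟨j.1, j.2, (key j.1 j.2).2 h⟩

/-- from narrow formulas to a monotone property -/
lemma closure (e : Fin M × Fin n × Bool ≃ Fin N) (L : ℕ) (C : Circuit N)
    (hC : ∀ x, Narrow L (form e x) → (C.eval x = true ↔ Sat (form e x))) :
    ∃ C' : Circuit N, C'.size ≤ C.size + M * 2 ^ tde (n * 2) + 1 ∧
      ∀ x, (C'.eval x = true ↔ (Sat (form e x) ∨ ¬ Narrow L (form e x))) := by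
  classical
  obtain ⟨P1, p1, a1⟩ := Av.app (Circuit.empty N) C (fun i x => x i) 0
    (fun i => Av.var _ i 0)
  obtain ⟨d, hd⟩ := nonNarrow_mc e L
  obtain ⟨P2, p2, a2⟩ := hd.av P1
  obtain ⟨P3, p3, a3⟩ := (a1.ext p2.1).or a2
  obtain ⟨C', c1, -, -, c4⟩ := a3.circuit
  refine ⟨C', ?_, fun x => ?_⟩
  · have h1 := ((p1.trans p2).trans p3).2.1
    have h2 : (Circuit.empty N).size = 0 := rfl
    omega
  · rw [c4, Bool.or_eq_true, decide_eq_true_eq]
    by_cases h : Narrow L (form e x)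
    · rw [hC x h]
    · simp [h]

lemma mono_prop (e : Fin M × Fin n × Bool ≃ Fin N) (L : ℕ) (x y : Fin N → Bool)
    (hxy : ∀ i, x i ≤ y i) (hx : Sat (form e x) ∨ ¬ Narrow L (form e x)) :
    Sat (form e y) ∨ ¬ Narrow L (form e y) := by
  have h0 : ∀ p, form e x p = true → form e y p = true := by
    intro p hp
    have := hxy (e p)
    unfold form at hp ⊢
    rw [hp] at this
    exact Bool.eq_true_of_true_le this
  rcases hx with ⟨a, ha⟩ | hx
  · left
    exact ⟨a, fun j => by obtain ⟨i, hi⟩ := ha j; exact ⟨i, h0 _ hi⟩⟩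
  · right
    intro hy
    apply hx
    intro j
    refine (Finset.card_le_card ?_).trans (hy j)
    intro z hz
    rw [Finset.mem_filter] at hz ⊢
    exact ⟨Finset.mem_univ _, h0 _ hz.2⟩

/-! ### numbers -/

lemma ev_pow (K : ℕ → ℕ) (hK : Tendsto (fun n : ℕ => (K n : ℝ) * Real.log n / n) atTop (nhds 0))
    (c : ℝ) (hc : 0 < c) : ∀ᶠ n : ℕ in atTop, (n : ℝ) ^ K n ≤ 2 ^ (c * n) := by
  have hl2 : 0 < Real.log 2 := Real.log_pos (by norm_num)
  have h1 : ∀ᶠ n : ℕ in atTop, (K n : ℝ) * Real.log n / n < c * Real.log 2 :=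
    hK.eventually (gt_mem_nhds (by positivity))
  filter_upwards [h1, eventually_ge_atTop 1] with n hn hn1
  have hn0 : (0 : ℝ) < n := by exact_mod_cast hn1
  rw [div_lt_iff₀ hn0] at hn
  rw [← Real.rpow_natCast, Real.rpow_def_of_pos hn0, Real.rpow_def_of_pos (by norm_num)]
  apply Real.exp_le_exp.2
  nlinarith

lemma log_div : Tendsto (fun n : ℕ => Real.log n / n) atTop (nhds 0) := by
  have h := Real.isLittleO_log_id_atTop.tendsto_div_nhds_zero
  exact h.comp tendsto_natCast_atTop_atTop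

lemma affine_tendsto {K : ℕ → ℕ}
    (hK : Tendsto (fun n : ℕ => (K n : ℝ) * Real.log n / n) atTop (nhds 0)) (a b : ℕ) :
    Tendsto (fun n : ℕ => ((a * K n + b : ℕ) : ℝ) * Real.log n / n) atTop (nhds 0) := by
  have h1 := (hK.const_mul (a : ℝ)).add (log_div.const_mul (b : ℝ))
  simp only [mul_zero, add_zero] at h1
  refine h1.congr fun n => ?_
  push_cast
  ring

lemma nat1 {n : ℕ} (hn : 3 ≤ n) (a : ℕ) : n ^ a * (n * 2) + 1 ≤ n ^ (a + 2) := by
  have g1 : 1 ≤ n ^ a := Nat.one_le_pow _ _ (by omega)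
  have g2 : n ^ (a + 2) = n ^ a * (n * n) := by ring
  rw [g2]
  have g3 : n * 2 + 1 ≤ n * n := by nlinarith
  calc n ^ a * (n * 2) + 1 ≤ n ^ a * (n * 2) + n ^ a * 1 := by omega
    _ = n ^ a * (n * 2 + 1) := by ring
    _ ≤ n ^ a * (n * n) := Nat.mul_le_mul_left _ g3

lemma nat2 {n T B : ℕ} (hn : 3 ≤ n) (hB : B ≤ n) (a : ℕ)
    (hT : T * 8 ≤ B * (n * 2 + 1) ^ 12) :
    n ^ a * T + 1 + 1 ≤ n ^ (a + 26) := by
  have g1 : n * 2 + 1 ≤ n ^ 2 := by nlinarith
  have g2 : (n * 2 + 1) ^ 12 ≤ (n ^ 2) ^ 12 := Nat.pow_le_pow_left g1 12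
  have g3 : T * 8 ≤ n * n ^ 24 := by
    refine hT.trans ?_
    calc B * (n * 2 + 1) ^ 12 ≤ n * (n ^ 2) ^ 12 := Nat.mul_le_mul hB g2
      _ = n * n ^ 24 := by rw [← pow_mul]
  have g4 : 1 ≤ n ^ (a + 25) := Nat.one_le_pow _ _ (by omega)
  have g5 : n ^ a * T * 8 ≤ n ^ (a + 25) := by
    calc n ^ a * T * 8 = n ^ a * (T * 8) := by ring
      _ ≤ n ^ a * (n * n ^ 24) := Nat.mul_le_mul_left _ g3
      _ = n ^ (a + 25) := by ring
  calc n ^ a * T + 1 + 1 ≤ 3 * n ^ (a + 25) := by omega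
    _ ≤ n * n ^ (a + 25) := Nat.mul_le_mul_right _ hn
    _ = n ^ (a + 26) := by ring

lemma nat3 {n B : ℕ} (hn : 3 ≤ n) (hB : B ≤ n) (a K : ℕ) :
    B * (n ^ a * (n * 2) + 1) ^ (K + 14) ≤ n ^ ((a + 2) * K + ((a + 2) * 14 + 1)) := by
  calc B * (n ^ a * (n * 2) + 1) ^ (K + 14) ≤ n * (n ^ (a + 2)) ^ (K + 14) :=
        Nat.mul_le_mul hB (Nat.pow_le_pow_left (nat1 hn a) _)
    _ = n ^ ((a + 2) * K + ((a + 2) * 14 + 1)) := by
        rw [← pow_mul]
        ring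

lemma num_final (δ : ℝ) (hδ : 0 < δ) (hδ2 : δ ≤ 1 / 2) (a : ℕ) (K : ℕ → ℕ)
    (hK : Tendsto (fun n : ℕ => (K n : ℝ) * Real.log n / n) atTop (nhds 0)) :
    ∀ᶠ n : ℕ in atTop, ∀ s : ℕ, (s : ℝ) ≤ 2 ^ ((1 - δ) * n) →
      ((2 ^ 21 * (n ^ a * (n * 2) + 1) ^ (K n + 14) * (s + n ^ a * 2 ^ tde (n * 2) + 1 + 1) : ℕ)
        : ℝ) ≤ 2 ^ ((1 - δ / 2) * n) := by
  have h1 := ev_pow (fun n => (a + 2) * K n + ((a + 2) * 14 + 2))
    (affine_tendsto hK (a + 2) ((a + 2) * 14 + 2)) (δ / 2) (by positivity)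
  have h2 := ev_pow (fun _ => 0 * 0 + (a + 26))
    (affine_tendsto (K := fun _ => 0) (by simp) 0 (a + 26)) (1 / 2) (by norm_num)
  filter_upwards [h1, h2, eventually_ge_atTop (2 ^ 21)] with n hn1 hn2 hn3 s hs
  have hn0 : 1 ≤ n := le_trans (by norm_num) hn3
  obtain ⟨B, hB⟩ : ∃ B : ℕ, B = 2 ^ 21 := ⟨_, rfl⟩
  have hn33 : 3 ≤ n := le_trans (by norm_num) hn3
  have hTT : 2 ^ tde (n * 2) * 8 ≤ 2 ^ 21 * (n * 2 + 1) ^ 12 := by
    have g0 := tde_pow (n * 2)
    calc 2 ^ tde (n * 2) * 8 ≤ (2 ^ 18 * (n * 2 + 1) ^ 12) * 8 := Nat.mul_le_mul_right _ g0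
      _ = 2 ^ 21 * (n * 2 + 1) ^ 12 := by ring
  obtain ⟨T, hT⟩ : ∃ T : ℕ, T = 2 ^ tde (n * 2) := ⟨_, rfl⟩
  rw [← hT, ← hB] at hTT
  rw [← hB] at hn3
  rw [← hT, ← hB]
  have e2 := nat2 hn33 hn3 a hTT
  have e3 := nat3 hn33 hn3 a (K n)
  have hnR : (1 : ℝ) ≤ n := by exact_mod_cast hn0
  have hn2R : (2 : ℝ) ≤ n := by
    have : 2 ≤ n := by omega
    exact_mod_cast this
  have e4 : ((s + n ^ a * T + 1 + 1 : ℕ) : ℝ) ≤ 2 * 2 ^ ((1 - δ) * n) := by
    have g1 : ((n ^ a * T + 1 + 1 : ℕ) : ℝ) ≤ (n : ℝ) ^ (a + 26) := by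
      exact_mod_cast e2
    have g2 : (n : ℝ) ^ (a + 26) ≤ 2 ^ (1 / 2 * (n : ℝ)) := by
      simpa using hn2
    have g3 : (2 : ℝ) ^ (1 / 2 * (n : ℝ)) ≤ 2 ^ ((1 - δ) * n) := by
      apply Real.rpow_le_rpow_of_exponent_le (by norm_num)
      apply mul_le_mul_of_nonneg_right _ (by positivity)
      linarith
    have g4 : ((s + n ^ a * T + 1 + 1 : ℕ) : ℝ) =
        (s : ℝ) + ((n ^ a * T + 1 + 1 : ℕ) : ℝ) := by
      push_cast
      ring
    rw [g4]
    linarith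
  have hpos : (0 : ℝ) < 2 ^ ((1 - δ) * (n : ℝ)) := Real.rpow_pos_of_pos (by norm_num) _
  calc ((B * (n ^ a * (n * 2) + 1) ^ (K n + 14) * (s + n ^ a * T + 1 + 1)
        : ℕ) : ℝ)
      = ((B * (n ^ a * (n * 2) + 1) ^ (K n + 14) : ℕ) : ℝ) *
          ((s + n ^ a * T + 1 + 1 : ℕ) : ℝ) := by
        rw [← Nat.cast_mul]
    _ ≤ (n : ℝ) ^ ((a + 2) * K n + ((a + 2) * 14 + 1)) * (2 * 2 ^ ((1 - δ) * n)) := by
        apply mul_le_mul _ e4 (Nat.cast_nonneg _) (by positivity)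
        exact_mod_cast e3
    _ ≤ (n : ℝ) ^ ((a + 2) * K n + ((a + 2) * 14 + 1)) * (n * 2 ^ ((1 - δ) * n)) := by
        gcongr
    _ = (n : ℝ) ^ ((a + 2) * K n + ((a + 2) * 14 + 2)) * 2 ^ ((1 - δ) * n) := by ring
    _ ≤ 2 ^ (δ / 2 * n) * 2 ^ ((1 - δ) * n) := by gcongr
    _ = 2 ^ ((1 - δ / 2) * n) := by
        rw [← Real.rpow_add (by norm_num)]
        congr 1
        ring

end Pool.Agent.W953.KC.Sat
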