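import Mathlib
import Pool.Agent.W953.KC.Sat

/-!
# Randomised circuits with few NOT gates for satisfiability on windows
-/

set_option autoImplicit false

namespace Pool.Agent.W953.KC.Sat

open Filter Finset Pool.Agent Pool.Agent.H559R4 Pool.Agent.H559R8

lemma Pad.mono {M M' n w w' : ℕ} {P : Finset (Fin M × Fin n × Bool)} (h : Pad P M' w)
    (hw : w ≤ w') : Pad P M' w' :=
  ⟨h.big, h.triv, fun j => (h.narrow j).trans hw⟩

open Classical in
/-- **Satisfiability on windows of numbers of literals.** -/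
theorem sat_windows (δ : ℝ) (hδ : 0 < δ) (A : ℕ) : ∃ c : ℕ, ∀ᶠ n : ℕ in atTop,
    ∀ M t m W : ℕ, t ≤ n → n ^ c * 2 ^ t ≤ M → n ^ c * 2 ^ t ≤ W → 2 * M ≤ m →
      m ≤ Nat.log 2 n * M →
      ∀ (N : ℕ) (e : Fin M × Fin n × Bool ≃ Fin N) (Ω : Type) [Fintype Ω] (w : Ω → ℝ),
        (∀ o, 0 ≤ w o) → ∑ o, w o = 1 → ∀ C : Ω → H540R2.Circuit N,
          (∀ o, (C o).nots ≤ t) → (∀ o, ((C o).size : ℝ) * 2 ^ t < 2 ^ ((1 - δ) * n)) →
          ∃ x : Fin N → Bool, Narrow (Nat.log 2 (n ^ c * 2 ^ t)) (form e x) ∧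
            m ≤ NW.wt x ∧ NW.wt x < m + W ∧
            ∑ o ∈ univ.filter (fun o => ((C o).eval x = true ↔ Sat (form e x))), w o <
              1 / 2 + 1 / (n : ℝ) ^ A := by
  obtain ⟨c, hc⟩ := main_rand δ hδ A
  refine ⟨c + 4, ?_⟩
  filter_upwards [hc, eventually_ge_atTop (c + 4)] with n hn hnc
  intro M t m W ht hM hW hm1 hm2 N e Ω _ w hw hw1 C hC1 hC2
  have hn1 : 1 ≤ n := by omega
  have hn4 : 4 ≤ n := by omega
  have hT : 1 ≤ 2 ^ t := Nat.one_le_two_pow
  set M' : ℕ := n ^ c * 2 ^ t with hM'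
  have hM'0 : 1 ≤ M' := Nat.mul_pos (Nat.pow_pos (by omega)) (by omega)
  have e4 : n ^ (c + 4) * 2 ^ t = n ^ 4 * M' := by
    rw [hM', pow_add]
    ring
  have hn44 : 2 ≤ n ^ 4 := by
    calc 2 ≤ 4 := by norm_num
      _ ≤ n := hn4
      _ = n ^ 1 := (pow_one n).symm
      _ ≤ n ^ 4 := Nat.pow_le_pow_right hn1 (by norm_num)
  have h2M : 2 * M' ≤ M := by
    refine le_trans ?_ hM
    rw [e4]
    exact Nat.mul_le_mul_right _ hn44
  have hMM : M' ≤ M := by omega
  set h : ℕ := Nat.log 2 n with hh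
  have hh1 : 1 ≤ h := Nat.log_pos (by norm_num) (by omega)
  have hhn : h < n := Nat.log_lt_self 2 (by omega)
  -- the trivial clauses
  have hm3 : m ≤ 2 * (h + 1) * (M - M') := by
    have h1 : M ≤ 2 * (M - M') := by omega
    calc m ≤ h * M := hm2
      _ ≤ (h + 1) * M := Nat.mul_le_mul_right _ (by omega)
      _ ≤ (h + 1) * (2 * (M - M')) := Nat.mul_le_mul_left _ h1
      _ = 2 * (h + 1) * (M - M') := by ring
  obtain ⟨P, hPc, hP⟩ := exists_pad (n := n) (h := h) (m := m) hMM hhn (by omega) hm3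
  -- the widths
  set w0 : ℕ := Nat.log 2 (n ^ c * 2 ^ t) with hw0
  set w2 : ℕ := Nat.log 2 (n ^ (c + 4) * 2 ^ t) with hw2
  have hw02 : w0 ≤ w2 := by
    apply Nat.log_mono_right
    exact Nat.mul_le_mul_right _ (Nat.pow_le_pow_right hn1 (by omega))
  have hh2 : 2 * (h + 1) ≤ w2 := by
    have h1 : 4 * h ≤ w2 := by
      apply Nat.le_log_of_pow_le (by norm_num)
      calc 2 ^ (4 * h) = (2 ^ h) ^ 4 := by rw [← pow_mul]; ring_nf
        _ ≤ n ^ 4 := Nat.pow_le_pow_left (Nat.pow_log_le_self 2 (by omega)) 4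
        _ = n ^ 4 * 1 := (Nat.mul_one _).symm
        _ ≤ n ^ (c + 4) * 2 ^ t :=
            Nat.mul_le_mul (Nat.pow_le_pow_right hn1 (by omega)) hT
    omega
  have hw0n : w0 < n ^ 2 := by
    have h1 : w0 < n * c + n + 1 := by
      apply Nat.log_lt_of_lt_pow (by positivity)
      calc n ^ c * 2 ^ t ≤ (2 ^ n) ^ c * 2 ^ n :=
            Nat.mul_le_mul (Nat.pow_le_pow_left Nat.lt_two_pow_self.le c)
              (Nat.pow_le_pow_right (by norm_num) ht)
        _ = 2 ^ (n * c + n) := by rw [← pow_mul, ← pow_add]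
        _ < 2 ^ (n * c + n + 1) := Nat.pow_lt_pow_right (by norm_num) (by omega)
    have h2 : n * (c + 4) ≤ n ^ 2 := by
      rw [sq]
      exact Nat.mul_le_mul_left _ hnc
    have h3 : n * (c + 4) = n * c + 4 * n := by ring
    omega
  obtain ⟨z, hz1, hz⟩ := (hn M' (2 ^ t) hT le_rfl).2 Ω w hw hw1 (fun o => (C o).size)
    (fun o => build (csub e P M') (C o) (C o).size) (fun o => outOf (csub e P M') (C o))
    (fun o => by
      rw [build_prod]
      exact Nat.pow_le_pow_right (by norm_num) (hC1 o))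
    (fun o => by
      rw [build_size]
      have := hC2 o
      push_cast
      exact this)
  obtain ⟨g1, g2⟩ := ones_sat e hMM hP z hz1
  rw [hPc] at g1 g2
  have g3 : NW.wt (sx (csub e P M') z) ≤ m + M' * w0 := g2
  refine ⟨sx (csub e P M') z, narrow_sub e (hP.mono hh2) z (fun j => (hz1 j).trans hw02), g1,
    lt_of_le_of_lt g3 ?_, ?_⟩
  · have h1 : M' * w0 < n ^ (c + 4) * 2 ^ t := by
      rw [e4]
      calc M' * w0 < M' * n ^ 2 := Nat.mul_lt_mul_of_pos_left hw0n (by omega)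
        _ ≤ M' * n ^ 4 := Nat.mul_le_mul_left _ (Nat.pow_le_pow_right hn1 (by norm_num))
        _ = n ^ 4 * M' := Nat.mul_comm _ _
    omega
  · refine lt_of_le_of_lt (le_of_eq ?_) hz
    apply Finset.sum_congr ?_ (fun _ _ => rfl)
    apply Finset.filter_congr
    intro o _
    rw [outOf_eval, sat_iff e hMM hP z]

end Pool.Agent.W953.KC.Sat
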